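import Pool.Agent.helper82.OG.Spec

/-!
# og:UNC: counting pairs of primes
-/

set_option autoImplicit false

open Finset

noncomputable section

namespace Pool.Agent.OG

open Pool.Agent.EP

theorem UNC (hE16 : E16_stmt) : UNC_stmt := by
  classical
  intro K Z t
  set A : Finset ℕ := {p ∈ P5 K | t ≤ #(TT (7 * p) (2 * Z))} with hA
  set W1 : Finset (ℕ × ℕ) := A ×ˢ P5 Z with hW1
  set W2 : Finset (ℕ × ℕ) := (P5 K \ A).biUnion fun p =>
    ((range (Nat.sqrt (2 * Z) + 1) ×ˢ TT (7 * p) (2 * Z)).image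
      fun x : ℕ × ℕ => (p, x.2 + 16 * x.1 ^ 2)) with hW2
  set W3 : Finset (ℕ × ℕ) := (range (Nat.sqrt K + 1) ×ˢ PQ (14 * K) (2 * Z)).image
    fun x : ℕ × (ℕ × ℕ) => ((x.2.1 + 16 * x.1 ^ 2) / 7, x.2.2) with hW3
  set W4 : Finset (ℕ × ℕ) := (P5 K ×ˢ range (Nat.sqrt (2 * Z + 14 * K) + 1)).image
    fun x : ℕ × ℕ => (x.1, 16 * x.2 ^ 2 - 7 * x.1) with hW4
  have hP : ∀ (y p : ℕ), p ∈ P5 y → y < p ∧ p ≤ 2 * y ∧ p.Prime ∧ p % 24 = 5 := by
    intro y p hp
    unfold P5 at hp
    rw [mem_filter, mem_Ioc] at hp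
    exact ⟨hp.1.1, hp.1.2, hp.2.1, hp.2.2⟩
  have hsub : P5 K ×ˢ P5 Z ⊆ W1 ∪ W2 ∪ W3 ∪ W4 := by
    rintro ⟨p, M⟩ hpM
    rw [mem_product] at hpM
    obtain ⟨hp, hM⟩ := hpM
    obtain ⟨hp1, hp2, hp3, hp4⟩ := hP K p hp
    obtain ⟨hM1, hM2, hM3, hM4⟩ := hP Z M hM
    dsimp only at hp1 hp2 hp3 hp4 hM1 hM2 hM3 hM4 hp hM
    by_cases hex : ∃ u : ℕ, M + 7 * p = 16 * u ^ 2
    · obtain ⟨u, hu⟩ := hex
      apply mem_union_right
      rw [hW4, mem_image]
      refine ⟨(p, u), ?_, ?_⟩
      · rw [mem_product, mem_range]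
        refine ⟨hp, ?_⟩
        have h1 : u ≤ Nat.sqrt (2 * Z + 14 * K) := by
          rw [Nat.le_sqrt']
          omega
        dsimp only
        omega
      · dsimp only
        have : 16 * u ^ 2 - 7 * p = M := by omega
        rw [this]
    · apply mem_union_left
      rcases hE16 p M hp3 hp4 hM3 hM4 hex with ⟨m, u, hm, hmu, hJ⟩ | ⟨j, u, hj, hju, hJ⟩
      · apply mem_union_left
        by_cases hpA : p ∈ A
        · apply mem_union_left
          rw [hW1, mem_product]
          exact ⟨hpA, hM⟩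
        · apply mem_union_right
          rw [hW2, mem_biUnion]
          refine ⟨p, mem_sdiff.2 ⟨hp, hpA⟩, ?_⟩
          rw [mem_image]
          refine ⟨(u, m), ?_, ?_⟩
          · rw [mem_product, mem_range]
            refine ⟨?_, ?_⟩
            · have h1 : u ≤ Nat.sqrt (2 * Z) := by
                rw [Nat.le_sqrt']
                omega
              dsimp only
              omega
            · unfold TT
              rw [mem_filter, mem_Ioc]
              refine ⟨⟨hm, ?_⟩, hJ⟩
              dsimp only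
              omega
          · dsimp only
            rw [hmu]
      · apply mem_union_right
        rw [hW3, mem_image]
        refine ⟨(u, (j, M)), ?_, ?_⟩
        · rw [mem_product, mem_range]
          refine ⟨?_, ?_⟩
          · have h1 : u ≤ Nat.sqrt K := by
              rw [Nat.le_sqrt']
              omega
            dsimp only
            omega
          · unfold PQ
            rw [mem_filter, mem_product, mem_Ioc, mem_Ioc]
            refine ⟨⟨⟨hj, ?_⟩, ⟨?_, ?_⟩⟩, hJ⟩
            · dsimp only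
              omega
            · dsimp only
              omega
            · dsimp only
              omega
        · dsimp only
          rw [hju, Nat.mul_div_cancel_left p (by norm_num)]
  have c1 : #W1 = #A * #(P5 Z) := card_product _ _
  have c2 : #W2 ≤ #(P5 K) * ((Nat.sqrt (2 * Z) + 1) * t) := by
    calc #W2 ≤ ∑ p ∈ P5 K \ A, #((range (Nat.sqrt (2 * Z) + 1) ×ˢ TT (7 * p) (2 * Z)).image
            fun x : ℕ × ℕ => (p, x.2 + 16 * x.1 ^ 2)) := card_biUnion_le
      _ ≤ ∑ p ∈ P5 K \ A, (Nat.sqrt (2 * Z) + 1) * t := by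
          apply sum_le_sum
          intro p hp
          refine le_trans card_image_le ?_
          rw [card_product, card_range]
          apply Nat.mul_le_mul_left
          rw [mem_sdiff, hA, mem_filter] at hp
          by_contra hlt
          exact hp.2 ⟨hp.1, by omega⟩
      _ = #(P5 K \ A) * ((Nat.sqrt (2 * Z) + 1) * t) := by
          rw [sum_const, smul_eq_mul]
      _ ≤ #(P5 K) * ((Nat.sqrt (2 * Z) + 1) * t) :=
          Nat.mul_le_mul_right _ (card_le_card sdiff_subset)
  have c3 : #W3 ≤ (Nat.sqrt K + 1) * #(PQ (14 * K) (2 * Z)) := by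
    refine le_trans card_image_le ?_
    rw [card_product, card_range]
  have c4 : #W4 ≤ #(P5 K) * (Nat.sqrt (2 * Z + 14 * K) + 1) := by
    refine le_trans card_image_le ?_
    rw [card_product, card_range]
  calc #(P5 K) * #(P5 Z) = #(P5 K ×ˢ P5 Z) := (card_product _ _).symm
    _ ≤ #(W1 ∪ W2 ∪ W3 ∪ W4) := card_le_card hsub
    _ ≤ #(W1 ∪ W2 ∪ W3) + #W4 := card_union_le _ _
    _ ≤ #(W1 ∪ W2) + #W3 + #W4 := Nat.add_le_add_right (card_union_le _ _) _
    _ ≤ #W1 + #W2 + #W3 + #W4 :=
        Nat.add_le_add_right (Nat.add_le_add_right (card_union_le _ _) _) _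
    _ ≤ _ := by
        rw [c1]
        exact Nat.add_le_add (Nat.add_le_add (Nat.add_le_add_left c2 _) c3) c4

end Pool.Agent.OG
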